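import Mathlib
import Pool.Agent.H21.FRDef3
import Pool.Agent.H21.FREx

namespace Pool.Agent.Results.MP_74778d_co.Balanced

open Pool.Agent.H21 Pool.Agent.H21.FR2 Matrix Finset

@[irreducible] def mult : Fin 14 → ℕ := ![11520, 11520, 11520, 11520, 8404992, 1282424832,
  26325, 26325, 26325, 26325, 8083, 8083, 2323, 2323]
@[irreducible] def blow : Fin 14 → ℕ := ![55296, 55296, 55296, 55296, 1, 1, 36864, 36864,
  36864, 36864, 110592, 110592, 110592, 110592]
def H (s t : Fin 14) : Bool :=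
  (s.val < 4 ∧ t.val < 4 ∧ (s.val + t.val) % 2 = 1) ∨
    (6 ≤ s.val ∧ 6 ≤ t.val ∧ s.val / 2 = t.val / 2 ∧ s.val ≠ t.val)
def att (x : Bool) (t : Fin 14) : Bool :=
  if x then t.val ∈ [2, 3, 5, 8, 9, 12, 13] else t.val ∈ [0, 1, 4, 6, 7, 10, 11]

theorem H_symm : ∀ s t, H s t = true → H t s = true := by decide
theorem H_irr : ∀ s, ¬ H s s = true := by decide
theorem H_mult : ∀ s t, H s t = true → mult s = mult t := by unfold mult; decide

abbrev W := Σ t : Fin 14, Fin (mult t) × Fin (blow t)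
abbrev V := Bool ⊕ W

def adj : V → V → Prop
  | .inl _, .inl _ => False
  | .inl x, .inr w => att x w.1 = true
  | .inr w, .inl x => att x w.1 = true
  | .inr w, .inr w' => H w.1 w'.1 = true ∧ w.2.1.val = w'.2.1.val

def G : SimpleGraph V where
  Adj := adj
  symm := ⟨by
    rintro (x | w) (y | w') h
    · exact h
    · exact h
    · exact h
    · exact ⟨H_symm _ _ h.1, h.2.symm⟩⟩
  loopless := ⟨by
    rintro (x | w) h
    · exact h
    · exact H_irr _ h.1⟩

noncomputable instance : DecidableRel G.Adj := Classical.decRel _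

def vec (g : Bool → ℝ) (f : Fin 14 → ℝ) : V → ℝ := Sum.elim g fun w => f w.1

theorem mv_inl (g : Bool → ℝ) (f : Fin 14 → ℝ) (x : Bool) :
    (G.adjMatrix ℝ *ᵥ vec g f) (.inl x) =
      ∑ t, if att x t = true then (mult t * blow t : ℝ) * f t else 0 := by
  simp only [mulVec, dotProduct, SimpleGraph.adjMatrix_apply, Fintype.sum_sum_type,
    Fintype.sum_sigma, G, adj, vec, Sum.elim_inl, Sum.elim_inr]
  simp

theorem mv_inr (g : Bool → ℝ) (f : Fin 14 → ℝ) (w : W) :
    (G.adjMatrix ℝ *ᵥ vec g f) (.inr w) =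
      (∑ x, if att x w.1 = true then g x else 0) +
        ∑ t, if H w.1 t = true then (blow t : ℝ) * f t else 0 := by
  simp only [mulVec, dotProduct, SimpleGraph.adjMatrix_apply, Fintype.sum_sum_type,
    Fintype.sum_sigma, G, adj, vec, Sum.elim_inl, Sum.elim_inr, Fintype.sum_prod_type]
  congr 1
  · simp
  · refine sum_congr rfl fun t _ => ?_
    by_cases h : H w.1 t = true
    · rw [if_pos h, sum_eq_single (⟨w.2.1.val, H_mult _ _ h ▸ w.2.1.2⟩ : Fin (mult t))]
      · simp [h]
      · intro c _ hc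
        have : ¬ w.2.1.val = c.val := fun e => hc (Fin.ext e.symm)
        simp [this]
      · simp
    · simp [h]

def gg (s z : ℝ) (x : Bool) : ℝ := (if x then 1 else 1 + s) * 9216 * ((8 + z) * z * (z - 16))
def ff (s z : ℝ) : Fin 14 → ℝ :=
  let p := z * (z - 16)
  let q := (8 + z) * (z - 16)
  let r := (8 + z) * z
  ![(2 + s) * r + s * p, (2 + s) * r + s * p, (2 + s) * r - s * p, (2 + s) * r - s * p,
    2 * (1 + s) * p, 2 * p, 2 * (1 + s) * q, 2 * (1 + s) * q, 2 * q, 2 * q,
    2 * (1 + s) * r, 2 * (1 + s) * r, 2 * r, 2 * r]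
def F (s z : ℝ) : V → ℝ := vec (gg s z) (ff s z)

theorem eig (s z : ℝ) (hs : s ^ 2 = 2) (hz : z ^ 4 - 428 * z ^ 2 + 11700 - 720 * s * z = 0) :
    G.adjMatrix ℝ *ᵥ F s z = (4608 * (8 + z)) • F s z := by
  ext v
  rcases v with x | ⟨t, c⟩
  · rw [F, mv_inl]
    cases x <;> simp [Fin.sum_univ_succ, att, mult, blow, vec, gg, ff] <;> grind
  · rw [F, mv_inr]
    fin_cases t <;> simp [Fin.sum_univ_succ, att, H, blow, vec, gg, ff] <;> grind

theorem eig' (s : ℝ) (hs : s ^ 2 = 2) (m : ℝ) (hm : (m - 15) * (m - 3) * (m + 5) * (m + 13) = 0) :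
    G.adjMatrix ℝ *ᵥ F s (m * s) = (4608 * (8 + m * s)) • F s (m * s) :=
  eig s _ hs (by grind)

theorem comb (s : ℝ) (hs : s ^ 2 = 2) (v : V) :
    8 * F s (15 * s) v - 35 * F s (3 * s) v + 42 * F s (-5 * s) v - 15 * F s (-13 * s) v =
      990904320 * s * ((1 + s) * (Pi.single (Sum.inl false) 1 : V → ℝ) v +
        (Pi.single (Sum.inl true) 1 : V → ℝ) v) := by
  rcases v with x | ⟨t, c⟩
  · cases x <;> simp [F, vec, gg] <;> grind
  · fin_cases t <;> simp [F, vec, ff] <;> ring

noncomputable def τ : ℝ := Real.pi / (9216 * √2)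
noncomputable def ω : ℂ := Complex.exp (Complex.I * τ * 36864)

theorem U_F (e : ℤ) (he : e = 1 ∨ e = -1) (k : ℤ)
    (hm : ((4 * k - 1 : ℝ) - 15) * (4 * k - 1 - 3) * (4 * k - 1 + 5) * (4 * k - 1 + 13) = 0) :
    U G τ *ᵥ (fun v => (F (e * √2) ((4 * k - 1) * (e * √2)) v : ℂ)) =
      (-e * Complex.I * ω) • fun v => (F (e * √2) ((4 * k - 1) * (e * √2)) v : ℂ) := by
  have hs : (e * √2) ^ 2 = 2 := by
    rw [mul_pow, Real.sq_sqrt (by norm_num)]; rcases he with rfl | rfl <;> simp
  have h := eig' _ hs _ hm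
  set z : ℝ := (4 * k - 1) * (e * √2) with hz
  have h2 : G.adjMatrix ℂ *ᵥ (fun v => (F (e * √2) z v : ℂ)) =
      ((4608 * (8 + z) : ℝ) : ℂ) • fun v => (F (e * √2) z v : ℂ) := by
    ext v
    have := congrArg Complex.ofReal (congrFun h v)
    simp only [SimpleGraph.adjMatrix_mulVec_apply, Pi.smul_apply, smul_eq_mul] at this ⊢
    rw [Complex.ofReal_sum, Complex.ofReal_mul] at this
    exact this
  rw [U, FREx.exp_mulVec _ _ (Complex.I * τ * ((4608 * (8 + z) : ℝ) : ℂ))
    (by rw [smul_mulVec, h2, smul_smul])]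
  congr 1
  have h0 : ((√2 : ℝ) : ℂ) ≠ 0 := by exact_mod_cast (by positivity : (√2 : ℝ) ≠ 0)
  have : Complex.I * τ * ((4608 * (8 + z) : ℝ) : ℂ) = Complex.I * τ * 36864 +
      ((k * e : ℤ) * (2 * Real.pi * Complex.I) + -e * (Real.pi / 2 * Complex.I)) := by
    rw [hz, τ]; push_cast; field_simp; ring
  rw [this, Complex.exp_add, Complex.exp_add, Complex.exp_int_mul_two_pi_mul_I, ω]
  rcases he with rfl | rfl
  · simp only [Int.cast_one, neg_mul, one_mul, Complex.exp_neg, Complex.exp_pi_div_two_mul_I,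
      Complex.inv_I]; ring
  · simp only [Int.cast_neg, Int.cast_one, neg_neg, one_mul, Complex.exp_pi_div_two_mul_I]; ring

theorem U_v (e : ℤ) (he : e = 1 ∨ e = -1) :
    U G τ *ᵥ (((1 + e * √2 : ℝ) : ℂ) • Pi.single (Sum.inl false) 1 + Pi.single (Sum.inl true) 1) =
      (-e * Complex.I * ω) • (((1 + e * √2 : ℝ) : ℂ) • Pi.single (Sum.inl false) 1 +
        Pi.single (Sum.inl true) 1) := by
  have hs : (e * √2) ^ 2 = 2 := by
    rw [mul_pow, Real.sq_sqrt (by norm_num)]; rcases he with rfl | rfl <;> simp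
  have h0 : ((990904320 * (e * √2) : ℝ) : ℂ) ≠ 0 := by
    have : e * √2 ≠ 0 := fun h => by rw [h] at hs; norm_num at hs
    exact_mod_cast mul_ne_zero (by norm_num) this
  have h1 := U_F e he 4 (by norm_num)
  have h2 := U_F e he 1 (by norm_num)
  have h3 := U_F e he (-1) (by norm_num)
  have h4 := U_F e he (-3) (by norm_num)
  set s : ℝ := e * √2
  norm_num only [Int.cast_ofNat, Int.cast_one, Int.cast_neg] at h1 h2 h3 h4
  have e' : ((990904320 * s : ℝ) : ℂ) •
      (((1 + s : ℝ) : ℂ) • Pi.single (Sum.inl false) 1 + Pi.single (Sum.inl true) 1 : V → ℂ) =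
      (8 : ℂ) • (fun v => (F s (15 * s) v : ℂ)) - (35 : ℂ) • (fun v => (F s (3 * s) v : ℂ)) +
        (42 : ℂ) • (fun v => (F s (-5 * s) v : ℂ)) - (15 : ℂ) • fun v => (F s (-13 * s) v : ℂ) := by
    ext v
    have := congrArg Complex.ofReal (comb s hs v)
    simp only [Pi.single_apply, Pi.smul_apply, Pi.add_apply, Pi.sub_apply, smul_eq_mul] at this ⊢
    push_cast [apply_ite Complex.ofReal] at this ⊢
    exact this.symm
  apply smul_right_injective _ h0
  simp only
  rw [← mulVec_smul, smul_comm _ (-e * Complex.I * ω), e', mulVec_sub, mulVec_add, mulVec_sub,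
    mulVec_smul, mulVec_smul, mulVec_smul, mulVec_smul, h1, h2, h3, h4]
  module

theorem fr : BalancedFR G (.inl false) (.inl true) := by
  have h0 : ((√2 : ℝ) : ℂ) ≠ 0 := by exact_mod_cast (by positivity : (√2 : ℝ) ≠ 0)
  have hn : ‖-Complex.I * ω / (√2 : ℝ)‖ = 1 / √2 := by
    rw [norm_div, norm_mul, ω, Complex.norm_exp]; simp
  refine ⟨τ, _, _, by unfold τ; positivity, hn, hn, ?_⟩
  have h1 := U_v 1 (.inl rfl)
  have h2 := U_v (-1) (.inr rfl)
  apply smul_right_injective _ (mul_ne_zero two_ne_zero h0)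
  simp only
  rw [mulVec_add, mulVec_smul] at h1 h2
  push_cast at h1 h2
  rw [smul_add, smul_smul, smul_smul, mul_assoc, mul_div_cancel₀ _ h0]
  linear_combination (norm := module) h1 - h2

theorem mem (s m : ℝ) (hs : s ^ 2 = 2) (hm : (m - 15) * (m - 3) * (m + 5) * (m + 13) = 0) :
    WithLp.toLp 2 (F s (m * s)) ∈ Module.End.eigenspace
      (Matrix.toEuclideanLin (G.adjMatrix ℝ)) (4608 * (8 + m * s)) := by
  rw [Module.End.mem_eigenspace_iff, Matrix.toEuclideanLin_toLp, Matrix.toLin'_apply,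
    eig' _ hs _ hm]; rfl

theorem proj_F (θ s m : ℝ) (hs : s ^ 2 = 2) (hm : (m - 15) * (m - 3) * (m + 5) * (m + 13) = 0)
    (hne : θ ≠ 4608 * (8 + m * s)) :
    (Module.End.eigenspace (Matrix.toEuclideanLin (G.adjMatrix ℝ)) θ).starProjection
      (WithLp.toLp 2 (F s (m * s))) = 0 := by
  rw [Submodule.starProjection_apply_eq_zero_iff]
  have hS : (Matrix.toEuclideanLin (G.adjMatrix ℝ)).IsSymmetric :=
    Matrix.isHermitian_iff_isSymmetric.mp (by
      rw [Matrix.IsHermitian, conjTranspose_eq_transpose_of_trivial]; exact G.isSymm_adjMatrix)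
  intro y hy
  exact hS.orthogonalFamily_eigenspaces hne ⟨y, hy⟩ ⟨_, mem s m hs hm⟩

theorem E_diag (θ : ℝ) (a : V) : E G θ a a = ‖(Module.End.eigenspace
    (Matrix.toEuclideanLin (G.adjMatrix ℝ)) θ).starProjection (EuclideanSpace.single a 1)‖ ^ 2 := by
  rw [← real_inner_self_eq_norm_sq, Submodule.inner_starProjection_left_eq_right,
    Submodule.starProjection_eq_self_iff.mpr (Submodule.starProjection_apply_mem _ _),
    EuclideanSpace.inner_single_left]
  simp [E]

theorem noncosp : ¬ Cospectral G (.inl false) (.inl true) := by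
  have h2 : √2 ^ 2 = 2 := Real.sq_sqrt (by norm_num)
  have hs : (-√2) ^ 2 = 2 := by rw [neg_sq, h2]
  have hp : 1.1 < √2 := Real.lt_sqrt_of_sq_lt (by norm_num)
  have hq : √2 < 2 := (Real.sqrt_lt' (by norm_num)).mpr (by norm_num)
  intro h
  have h := h (4608 * (8 + 15 * √2))
  rw [E_diag, E_diag] at h
  set K := Module.End.eigenspace (Matrix.toEuclideanLin (G.adjMatrix ℝ)) (4608 * (8 + 15 * √2))
    with hK
  have e : (990904320 * -√2 : ℝ) • ((1 + -√2) • EuclideanSpace.single (Sum.inl false) 1 +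
      EuclideanSpace.single (Sum.inl true) 1 : EuclideanSpace ℝ V) =
      (8 : ℝ) • WithLp.toLp 2 (F (-√2) (15 * -√2)) - (35 : ℝ) • WithLp.toLp 2 (F (-√2) (3 * -√2)) +
        (42 : ℝ) • WithLp.toLp 2 (F (-√2) (-5 * -√2)) -
          (15 : ℝ) • WithLp.toLp 2 (F (-√2) (-13 * -√2)) := by
    ext v
    have := comb _ hs v
    simp only [PiLp.smul_apply, PiLp.add_apply, PiLp.sub_apply, smul_eq_mul,
      EuclideanSpace.single_apply, Pi.single_apply] at this ⊢
    exact this.symm
  have p := congrArg K.starProjection e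
  rw [map_sub, map_add, map_sub, map_smul, map_smul, map_smul, map_smul, map_smul,
    proj_F _ _ 15 hs (by norm_num) (by intro h; linarith),
    proj_F _ _ 3 hs (by norm_num) (by intro h; linarith),
    proj_F _ _ (-5) hs (by norm_num) (by intro h; linarith),
    proj_F _ _ (-13) hs (by norm_num) (by intro h; linarith), map_add, map_smul] at p
  simp only [sub_zero, smul_zero, add_zero, smul_eq_zero] at p
  rcases p with p | p
  · linarith
  rw [eq_neg_of_add_eq_zero_right p, norm_neg, norm_smul, mul_pow, Real.norm_eq_abs, sq_abs] at h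
  have z : K.starProjection (EuclideanSpace.single (Sum.inl false) 1) = 0 := by
    by_contra hz
    have := pow_pos (norm_pos_iff.mpr hz) 2
    nlinarith
  rw [Submodule.starProjection_apply_eq_zero_iff] at z
  have := z _ (mem √2 15 h2 (by norm_num))
  rw [EuclideanSpace.inner_single_right] at this
  simp only [F, vec, gg, Sum.elim_inl, one_mul, conj_trivial, Bool.false_eq_true, if_false,
    mul_eq_zero] at this
  rcases this with (h | h) | (h | h | h) | h <;> linarith

theorem result : ∃ (V : Type) (_ : Fintype V) (_ : DecidableEq V) (G : SimpleGraph V)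
    (_ : DecidableRel G.Adj) (a b : V), a ≠ b ∧ ¬ Cospectral G a b ∧ BalancedFR G a b :=
  ⟨V, inferInstance, inferInstance, G, inferInstance, .inl false, .inl true, by simp, noncosp, fr⟩

end Pool.Agent.Results.MP_74778d_co.Balanced
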